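import Mathlib
import Pool.Agent.H37PU.Chain

/-!
# The chain type: the closures are subfields
-/

set_option autoImplicit false

namespace Pool.Agent.H37PU

open Equiv Pool.Agent.H37PG

section

variable {F : Type*} [Field F]

theorem aff_AA (a b : F) (ha : a ≠ 0) (haK : a ∈ KK F) (hbK : b ∈ KK F) :
    ∀ x ∈ AA F, aff a b ha x ∈ AA F := by
  intro r hr
  cases r with
  | none => exact none_mem_AA
  | some z =>
    rw [some_mem_AA] at hr
    rw [aff_some, some_mem_AA]
    exact add_mem (mul_mem haK hr) hbK

theorem iv_AA : ∀ x ∈ AA F, iv x ∈ AA F := by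
  intro r hr
  cases r with
  | none => rw [iv_none, some_mem_AA]; exact zero_mem _
  | some z =>
    rw [some_mem_AA] at hr
    by_cases hz : z = 0
    · subst hz; rw [iv_zero]; exact none_mem_AA
    · rw [iv_some hz, some_mem_AA]; exact inv_mem hr

end

namespace Ctx

variable {F : Type*} [Field F] [IsAlgClosed F]
  {G : Subgroup (Perm (Option F))} {b0 : Finset (Option F)} {t : F} (c : Ctx G b0 t)

include c

theorem D_sub {u a : F} (hu : u ∉ KK F) (ha : a ∈ KK F) :
    c.DD (some (a - u)) = c.DD (some u) := by
  have h := c.invol (c.hG _ (aff_mem (-1) a (by simp))) (aff_AA _ _ (by simp)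
    (neg_mem (one_mem _)) ha) (v := some u) (by rwa [some_mem_AA]) (by simp)
  rw [aff_some] at h
  rw [← h]
  congr 2
  ring

theorem D_neg {u : F} (hu : u ∉ KK F) : c.DD (some (-u)) = c.DD (some u) := by
  have := c.D_sub hu (zero_mem _)
  rwa [zero_sub] at this

theorem D_add {u a : F} (hu : u ∉ KK F) (ha : a ∈ KK F) :
    c.DD (some (u + a)) = c.DD (some u) := by
  have hnu : -u ∉ KK F := fun h => hu (by simpa using neg_mem h)
  have := c.D_sub hnu ha
  rw [c.D_neg hu] at this
  rw [← this]
  congr 2
  ring

theorem D_inv {u : F} (hu : u ∉ KK F) : c.DD (some u⁻¹) = c.DD (some u) := by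
  have hu0 : u ≠ 0 := by rintro rfl; exact hu (zero_mem _)
  have h := c.invol (c.hG _ iv_mem) iv_AA (v := some u) (by rwa [some_mem_AA]) (iv_iv _)
  rwa [iv_some hu0] at h

theorem D_mul {u a : F} (hu : u ∉ KK F) (ha : a ∈ KK F) (ha0 : a ≠ 0) :
    c.DD (some (a * u)) = c.DD (some u) := by
  have hu0 : u ≠ 0 := by rintro rfl; exact hu (zero_mem _)
  have hiu : u⁻¹ ∉ KK F := fun h => hu (by simpa using inv_mem h)
  have h := c.invol (γ := aff a 0 ha0 * iv) (G.mul_mem (c.hG _ (aff_mem a 0 ha0)) (c.hG _ iv_mem))
    (fun x hx => aff_AA _ _ ha0 ha (zero_mem _) _ (iv_AA x hx)) (v := some u⁻¹)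
    (by rwa [some_mem_AA]) (by
      have e1 : (aff a 0 ha0 * iv : Perm (Option F)) (some u⁻¹) = some (a * u) := by
        rw [Perm.mul_apply, iv_some (inv_ne_zero hu0), inv_inv, aff_some, add_zero]
      have hau : a * u ≠ 0 := mul_ne_zero ha0 hu0
      rw [e1, Perm.mul_apply, iv_some hau, aff_some, add_zero]
      congr 1
      field_simp)
  have e1 : (aff a 0 ha0 * iv : Perm (Option F)) (some u⁻¹) = some (a * u) := by
    rw [Perm.mul_apply, iv_some (inv_ne_zero hu0), inv_inv, aff_some, add_zero]
  rw [e1, c.D_inv hu] at h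
  exact h

theorem mem_of_K {v a : F} (hv : v ∉ KK F) (ha : a ∈ KK F) : some a ∈ c.DD (some v) :=
  c.AA_sub (by rwa [some_mem_AA]) ((some_mem_AA a).2 ha)

theorem add_mem_D {u v : F} (hu : u ∉ KK F) (hv : v ∉ KK F) (huv : some u ∈ c.DD (some v)) :
    some (u + v) ∈ c.DD (some v) := by
  have hvA : some v ∉ AA F := by rwa [some_mem_AA]
  have h := c.move_mem (T := aff 1 u one_ne_zero) (ν := aff (-1) 0 (by simp))
    (c.hG _ (aff_mem _ _ _)) (v := some v) hvA
    (by
      have hne : (aff (-1 : F) 0 (by simp)) (some v) = some (-v) := by simp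
      have hnv : some (-v) ∉ AA F := by
        rw [some_mem_AA]; exact fun h => hv (by simpa using neg_mem h)
      rw [c.image_eq (c.hG _ (aff_mem _ _ _))
        (aff_AA _ _ (by simp) (neg_mem (one_mem _)) (zero_mem _)) (by rw [hne]; exact hnv),
        hne, c.D_neg hv])
    (by
      intro x
      cases x with
      | none => rfl
      | some z =>
        simp only [aff_some, aff_inv_some]
        congr 1
        ring)
    (by
      intro x hx
      cases x with
      | none => exact c.AA_sub hvA none_mem_AA
      | some a =>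
        rw [some_mem_AA] at hx
        rw [aff_some, one_mul, add_comm]
        have h1 := c.D_add hu hx
        have h2 : c.DD (some u) ⊆ c.DD (some v) := c.DD_mono hvA huv
        rw [← h1] at h2
        exact h2 (c.mem_self _))
  rw [aff_some, one_mul, add_comm] at h
  exact h

theorem mul_mem_D {u v : F} (hu : u ∉ KK F) (hv : v ∉ KK F) (huv : some u ∈ c.DD (some v)) :
    some (u * v) ∈ c.DD (some v) := by
  have hvA : some v ∉ AA F := by rwa [some_mem_AA]
  have hu0 : u ≠ 0 := by rintro rfl; exact hu (zero_mem _)
  have hv0 : v ≠ 0 := by rintro rfl; exact hv (zero_mem _)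
  have h := c.move_mem (T := aff u 0 hu0) (ν := iv)
    (c.hG _ (aff_mem _ _ _)) (v := some v) hvA
    (by
      have hnv : some v⁻¹ ∉ AA F := by
        rw [some_mem_AA]; exact fun h => hv (by simpa using inv_mem h)
      rw [c.image_eq (c.hG _ iv_mem) iv_AA (by rw [iv_some hv0]; exact hnv),
        iv_some hv0, c.D_inv hv])
    (by
      intro x
      cases x with
      | none =>
        rw [aff_none, iv_none, aff_inv_some]
        simp
      | some z =>
        by_cases hz : z = 0
        · subst hz
          rw [aff_some, mul_zero, zero_add, iv_zero, aff_inv_none]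
        · rw [aff_some, add_zero, iv_some (mul_ne_zero hu0 hz), iv_some hz, aff_inv_some]
          congr 1
          field_simp
          ring)
    (by
      intro x hx
      cases x with
      | none => exact c.AA_sub hvA none_mem_AA
      | some a =>
        rw [some_mem_AA] at hx
        rw [aff_some, add_zero]
        by_cases ha0 : a = 0
        · subst ha0
          rw [mul_zero]
          exact c.mem_of_K hv (zero_mem _)
        · have h1 := c.D_mul hu hx ha0
          have h2 : c.DD (some u) ⊆ c.DD (some v) := c.DD_mono hvA huv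
          rw [← h1, mul_comm a u] at h2
          exact h2 (c.mem_self _))
  rw [aff_some, add_zero] at h
  exact h

/-- elements strictly below `w`. -/
def Bel (c : Ctx G b0 t) (w x : F) : Prop :=
  x ∈ KK F ∨ (some x ∈ c.DD (some w) ∧ some w ∉ c.DD (some x))

omit c in
theorem Bel.lower {c : Ctx G b0 t} {w x z : F} (hw : w ∉ KK F) (hx : x ∉ KK F)
    (h : c.Bel w x) (hz : some z ∈ c.DD (some x)) : c.Bel w z := by
  by_cases hzK : z ∈ KK F
  · exact Or.inl hzK
  rcases h with h | ⟨h1, h2⟩
  · exact absurd h hx
  · right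
    have s1 : c.DD (some x) ⊆ c.DD (some w) := c.DD_mono (by rwa [some_mem_AA]) h1
    have s2 : c.DD (some z) ⊆ c.DD (some x) := c.DD_mono (by rwa [some_mem_AA]) hz
    exact ⟨s1 hz, fun hh => h2 (s2 hh)⟩

/-- the subfield of elements strictly below `w`. -/
theorem exists_bel (w : F) (hw : w ∉ KK F) :
    ∃ E : IntermediateField (KK F) F, ∀ x, x ∈ E ↔ c.Bel w x := by
  have hadd : ∀ x y, c.Bel w x → c.Bel w y → c.Bel w (x + y) := by
    have aux : ∀ x y, x ∉ KK F → y ∉ KK F → c.Bel w y → some x ∈ c.DD (some y) →
        c.Bel w (x + y) := fun x y hx hy hby hxy =>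
      Bel.lower hw hy hby (c.add_mem_D hx hy hxy)
    intro x y hx hy
    by_cases hxK : x ∈ KK F
    · by_cases hyK : y ∈ KK F
      · exact Or.inl (add_mem hxK hyK)
      · apply Bel.lower hw hyK hy
        rw [← c.D_add hyK hxK, add_comm]
        exact c.mem_self _
    · by_cases hyK : y ∈ KK F
      · apply Bel.lower hw hxK hx
        rw [← c.D_add hxK hyK]
        exact c.mem_self _
      · rcases c.total (v := some x) (w := some y) (by rwa [some_mem_AA])
          (by rwa [some_mem_AA]) with h | h
        · exact aux x y hxK hyK hy h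
        · rw [add_comm]
          exact aux y x hyK hxK hx h
  have hmul : ∀ x y, c.Bel w x → c.Bel w y → c.Bel w (x * y) := by
    have aux : ∀ x y, x ∉ KK F → y ∉ KK F → c.Bel w y → some x ∈ c.DD (some y) →
        c.Bel w (x * y) := fun x y hx hy hby hxy =>
      Bel.lower hw hy hby (c.mul_mem_D hx hy hxy)
    have aux2 : ∀ x y, x ∈ KK F → y ∉ KK F → c.Bel w y → c.Bel w (x * y) := by
      intro x y hxK hyK hy
      by_cases hx0 : x = 0
      · subst hx0
        rw [zero_mul]
        exact Or.inl (zero_mem _)
      · apply Bel.lower hw hyK hy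
        rw [← c.D_mul hyK hxK hx0]
        exact c.mem_self _
    intro x y hx hy
    by_cases hxK : x ∈ KK F
    · by_cases hyK : y ∈ KK F
      · exact Or.inl (mul_mem hxK hyK)
      · exact aux2 x y hxK hyK hy
    · by_cases hyK : y ∈ KK F
      · rw [mul_comm]
        exact aux2 y x hyK hxK hx
      · rcases c.total (v := some x) (w := some y) (by rwa [some_mem_AA])
          (by rwa [some_mem_AA]) with h | h
        · exact aux x y hxK hyK hy h
        · rw [mul_comm]
          exact aux y x hyK hxK hx h
  have hinv : ∀ x, c.Bel w x → c.Bel w x⁻¹ := by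
    intro x hx
    by_cases hxK : x ∈ KK F
    · exact Or.inl (inv_mem hxK)
    · apply Bel.lower hw hxK hx
      rw [← c.D_inv hxK]
      exact c.mem_self _
  refine ⟨{ carrier := {x | c.Bel w x}
            mul_mem' := fun {a b} ha hb => hmul a b ha hb
            add_mem' := fun {a b} ha hb => hadd a b ha hb
            algebraMap_mem' := fun r => Or.inl r.2
            inv_mem' := fun a ha => hinv a ha }, fun x => Iff.rfl⟩

end Ctx

end Pool.Agent.H37PU
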