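import Mathlib
import Pool.Agent.H37PU.Clo
import Pool.Agent.H37PU.ChainField

/-!
# The Steiner type for even `n`
-/

set_option autoImplicit false

namespace Pool.Agent.H37PU

open Equiv Polynomial Pool.Agent.H37PG

section Fib

variable {F : Type*} [Field F]

open Classical in
/-- the fibre of `z ↦ z^m` over `u`, as a finite set of points of the line. -/
noncomputable def Fib (m : ℕ) (u : F) : Finset (Option F) :=
  (nthRoots m u).toFinset.image some

theorem mem_Fib {m : ℕ} (hm : 0 < m) {u z : F} : some z ∈ Fib m u ↔ z ^ m = u := by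
  classical
  simp [Fib, mem_nthRoots hm]

theorem none_notMem_Fib {m : ℕ} {u : F} : none ∉ Fib m u := by
  classical
  simp [Fib]

theorem card_Fib [IsAlgClosed F] {m : ℕ} (hmF : (m : F) ≠ 0) {u : F} (hu : u ≠ 0) :
    (Fib m u).card = m := by
  classical
  have hm : 0 < m := by
    rcases Nat.eq_zero_or_pos m with h | h
    · exact absurd (by rw [h]; exact Nat.cast_zero) hmF
    · exact h
  have : NeZero (m : F) := ⟨hmF⟩
  have : NeZero m := ⟨hm.ne'⟩
  obtain ⟨ζ, hζ⟩ := HasEnoughRootsOfUnity.exists_primitiveRoot F m
  rw [Fib, Finset.card_image_of_injective _ (Option.some_injective F),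
    Multiset.toFinset_card_of_nodup (hζ.nthRoots_nodup hu), hζ.card_nthRoots]
  rw [if_pos]
  exact IsAlgClosed.exists_pow_nat_eq u hm

end Fib

section St

variable {F : Type*} [Field F] [IsAlgClosed F]

open Classical in
/-- hypotheses of the exchange (Steiner) type for `n`-sets. -/
structure StC (G : Subgroup (Perm (Option F))) (n : ℕ) (t : F) : Prop where
  hG : ∀ g ∈ Gam F, g ∈ G
  ht : t ∉ KK F
  hcov : ∀ g ∈ G, ∃ x, x ∉ AA F ∧ x ∉ g '' AA F
  hn : 0 < n
  hT : Tr G n
  hS : ∀ b : Finset (Option F), b.card + 1 = n → ∀ x y, x ∉ b → y ∉ b →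
      x ∈ cl G (insert y b : Finset (Option F)) → y ∈ cl G (insert x b : Finset (Option F))
  hnT : ¬ Tr G (n + 1)

namespace StC

variable {G : Subgroup (Perm (Option F))} {n : ℕ} {t : F} (c : StC G n t)

include c

theorem bd (B : Finset (Option F)) (hB : B.card = n) : Bd G (cl G (B : Set (Option F))) := by
  obtain ⟨h1, hh1, hcb⟩ := exists_cover c.hT B (le_of_eq hB)
  exact (cl_bd c.hG c.ht c.hcov hh1 hcb).1

open Classical in
theorem move (B B' : Finset (Option F)) (hB : B.card = n) (hB' : B'.card = n) :
    ∃ g ∈ G, B.image g = B' := by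
  obtain ⟨x, hx⟩ : B.Nonempty := by rw [← Finset.card_pos, hB]; exact c.hn
  obtain ⟨x', hx'⟩ : B'.Nonempty := by rw [← Finset.card_pos, hB']; exact c.hn
  have hn := c.hn
  obtain ⟨g, hg, hgb, hgx⟩ := exists_move c.hT (B.erase x) (B'.erase x')
    (by rw [Finset.card_erase_of_mem hx, Finset.card_erase_of_mem hx', hB, hB'])
    (by rw [Finset.card_erase_of_mem hx, hB]; omega) x x' (Finset.notMem_erase x B)
    (Finset.notMem_erase x' B')
  refine ⟨g, hg, ?_⟩
  rw [← Finset.insert_erase hx, Finset.image_insert, hgb, hgx, Finset.insert_erase hx']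

open Classical in
/-- the Steiner property. -/
theorem steiner : ∀ (j : ℕ) (B B' : Finset (Option F)), B.card = n → B'.card = n →
    (B' \ B).card = j → (B' : Set (Option F)) ⊆ cl G (B : Set (Option F)) →
    cl G (B' : Set (Option F)) = cl G (B : Set (Option F)) := by
  intro j
  induction j with
  | zero =>
    intro B B' hB hB' hj hsub
    rw [Finset.card_eq_zero, Finset.sdiff_eq_empty_iff_subset] at hj
    rw [Finset.eq_of_subset_of_card_le hj (by omega)]
  | succ j ih =>
    intro B B' hB hB' hj hsub
    obtain ⟨y, hy⟩ : (B' \ B).Nonempty := by rw [← Finset.card_pos, hj]; omega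
    rw [Finset.mem_sdiff] at hy
    obtain ⟨x, hx⟩ : (B \ B').Nonempty := by
      rw [← Finset.card_pos]
      have h1 := Finset.card_sdiff_add_card_inter B B'
      have h2 := Finset.card_sdiff_add_card_inter B' B
      rw [Finset.inter_comm] at h2
      omega
    rw [Finset.mem_sdiff] at hx
    have hbc : (B.erase x).card + 1 = n := by
      rw [Finset.card_erase_of_mem hx.1, hB]
      have := c.hn
      omega
    have hBx : insert x (B.erase x) = B := Finset.insert_erase hx.1
    have hyb : y ∉ B.erase x := fun h => hy.2 (Finset.mem_of_mem_erase h)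
    have hxy : x ∈ cl G (insert y (B.erase x) : Finset (Option F)) := by
      apply c.hS (B.erase x) hbc y x hyb (Finset.notMem_erase x B)
      rw [hBx]
      exact hsub (by exact_mod_cast hy.1)
    -- the new n-set
    have hB1c : (insert y (B.erase x)).card = n := by
      rw [Finset.card_insert_of_notMem hyb]; exact hbc
    have e1 : cl G (insert y (B.erase x) : Finset (Option F)) = cl G (B : Set (Option F)) := by
      apply Set.Subset.antisymm
      · apply cl_min (c.bd B hB)
        rw [Finset.coe_insert]
        apply Set.insert_subset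
        · exact hsub (by exact_mod_cast hy.1)
        · intro z hz
          exact subset_cl _ (Finset.mem_of_mem_erase hz)
      · apply cl_min (c.bd _ hB1c)
        intro z hz
        by_cases hzx : z = x
        · rw [hzx]; exact hxy
        · apply subset_cl
          rw [Finset.coe_insert]
          exact Or.inr (Finset.mem_erase.2 ⟨hzx, hz⟩)
    rw [← e1]
    apply ih _ B' hB1c hB'
    · have h1 : B' \ insert y (B.erase x) = (B' \ B).erase y := by
        ext z
        simp only [Finset.mem_sdiff, Finset.mem_insert, Finset.mem_erase, not_or]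
        constructor
        · rintro ⟨h1, h2, h3⟩
          refine ⟨h2, h1, fun h4 => h3 ⟨?_, h4⟩⟩
          rintro rfl
          exact hx.2 h1
        · rintro ⟨h1, h2, h3⟩
          exact ⟨h2, h1, fun h4 => h3 h4.2⟩
      rw [h1, Finset.card_erase_of_mem (Finset.mem_sdiff.2 hy), hj]
      omega
    · rw [e1]; exact hsub

theorem steiner' (B B' : Finset (Option F)) (hB : B.card = n) (hB' : B'.card = n)
    (hsub : (B' : Set (Option F)) ⊆ cl G (B : Set (Option F))) :
    cl G (B' : Set (Option F)) = cl G (B : Set (Option F)) := by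
  classical
  exact c.steiner _ B B' hB hB' rfl hsub

/-- blocks have a further point. -/
theorem extra (B : Finset (Option F)) (hB : B.card = n) :
    ∃ z, z ∈ cl G (B : Set (Option F)) ∧ z ∉ B := by
  classical
  by_contra hcon
  push Not at hcon
  have hcl : cl G (B : Set (Option F)) = B :=
    Set.Subset.antisymm (fun z hz => by exact_mod_cast hcon z hz) (subset_cl _)
  apply c.hnT
  intro P hP
  rcases Nat.lt_or_ge P.card n with h | h
  · exact c.hT P h
  · have hPn : P.card = n := by omega
    obtain ⟨g, hg, hgB⟩ := c.move B P hB hPn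
    have hJ : Jn G (B : Set (Option F)) := by
      have := (c.bd B hB).1
      rwa [hcl] at this
    rw [← hgB, Finset.coe_image]
    exact hJ.image hg

end StC

end St

end Pool.Agent.H37PU
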