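import Mathlib
import Pool.Agent.H37PU.Even

/-!
# No Steiner type for even `n`, in every characteristic
-/

set_option autoImplicit false

namespace Pool.Agent.H37PU

open Equiv Polynomial Pool.Agent.H37PG

section Maps

variable {F : Type*} [Field F]

/-- `z ↦ c / z`. -/
noncomputable def kap (c : F) (hc : c ≠ 0) : Perm (Option F) := aff c 0 hc * iv

theorem kap_mem (c : F) (hc : c ≠ 0) : kap c hc ∈ Gam F := mul_mem (aff_mem _ _ _) iv_mem

theorem kap_none (c : F) (hc : c ≠ 0) : kap c hc none = some 0 := by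
  simp [kap]

theorem kap_zero (c : F) (hc : c ≠ 0) : kap c hc (some 0) = none := by
  simp [kap]

theorem kap_some (c : F) (hc : c ≠ 0) {z : F} (hz : z ≠ 0) : kap c hc (some z) = some (c / z) := by
  rw [kap, Perm.mul_apply, iv_some hz, aff_some, add_zero, div_eq_mul_inv]

end Maps

namespace StC

variable {F : Type*} [Field F] [IsAlgClosed F]
variable {G : Subgroup (Perm (Option F))} {n : ℕ} {t : F} (c : StC G n t)

open Classical in
/-- the union of two fibres, with `∞, 0` added when `e` is true. -/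
noncomputable def BB (e : Bool) (m : ℕ) (u v : F) : Finset (Option F) :=
  (if e then {none, some 0} else ∅) ∪ (Fib m u ∪ Fib m v)

omit [IsAlgClosed F] in
theorem mem_BB {e : Bool} {m : ℕ} (hm : 0 < m) {u v z : F} (hz : z ≠ 0) :
    some z ∈ BB e m u v ↔ z ^ m = u ∨ z ^ m = v := by
  classical
  rw [BB, Finset.mem_union, Finset.mem_union, mem_Fib hm, mem_Fib hm]
  cases e <;> simp [hz]

omit [IsAlgClosed F] in
theorem none_mem_BB {e : Bool} {m : ℕ} {u v : F} : none ∈ BB e m u v ↔ e = true := by
  classical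
  rw [BB, Finset.mem_union, Finset.mem_union]
  have h1 := none_notMem_Fib (m := m) (u := u)
  have h2 := none_notMem_Fib (m := m) (u := v)
  cases e <;> simp [h1, h2]

omit [IsAlgClosed F] in
theorem zero_mem_BB {e : Bool} {m : ℕ} (hm : 0 < m) {u v : F} (hu : u ≠ 0) (hv : v ≠ 0) :
    some 0 ∈ BB e m u v ↔ e = true := by
  classical
  rw [BB, Finset.mem_union, Finset.mem_union, mem_Fib hm, mem_Fib hm, zero_pow hm.ne']
  cases e <;> simp [hu.symm, hv.symm]

theorem card_BB {e : Bool} {m : ℕ} (hmF : (m : F) ≠ 0) (hm : 0 < m) {u v : F} (hu : u ≠ 0)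
    (hv : v ≠ 0) (huv : u ≠ v) :
    (BB e m u v).card = 2 * m + (if e then 2 else 0) := by
  classical
  have hd : Disjoint (Fib m u) (Fib m v) := by
    rw [Finset.disjoint_left]
    intro p hp hp'
    cases p with
    | none => exact none_notMem_Fib hp
    | some z =>
      rw [mem_Fib hm] at hp hp'
      exact huv (hp.symm.trans hp')
  have hc : (Fib m u ∪ Fib m v).card = 2 * m := by
    rw [Finset.card_union_of_disjoint hd, card_Fib hmF hu, card_Fib hmF hv]
    ring
  cases e with
  | false => simp [BB, hc]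
  | true =>
    rw [BB, Finset.card_union_of_disjoint, hc]
    · simp
      ring
    · rw [Finset.disjoint_left]
      intro p hp hp'
      simp only [if_true, Finset.mem_insert, Finset.mem_singleton] at hp
      rw [Finset.mem_union] at hp'
      rcases hp with rfl | rfl
      · rcases hp' with h | h <;> exact none_notMem_Fib h
      · rw [mem_Fib hm, mem_Fib hm, zero_pow hm.ne'] at hp'
        rcases hp' with h | h
        · exact hu h.symm
        · exact hv h.symm

/-- the line through `u` and `v`. -/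
def LL (G : Subgroup (Perm (Option F))) (e : Bool) (m : ℕ) (u v w : F) : Prop :=
  ∃ z : F, z ^ m = w ∧ some z ∈ cl G (BB e m u v : Set (Option F))

include c

/-- an element of `G` preserving an `n`-set (as a set) preserves its closure. -/
theorem pres {B : Finset (Option F)} {γ : Perm (Option F)} (hγ : γ ∈ G)
    (h : ∀ p, p ∈ B ↔ γ p ∈ B) {p : Option F} (hp : p ∈ cl G (B : Set (Option F))) :
    γ p ∈ cl G (B : Set (Option F)) := by
  have h1 : γ '' (B : Set (Option F)) = B := by
    ext q
    constructor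
    · rintro ⟨r, hr, rfl⟩
      exact (h r).1 hr
    · intro hq
      refine ⟨γ⁻¹ q, ?_, app_inv γ q⟩
      rw [Finset.mem_coe, h, app_inv]
      exact hq
  rw [← h1, cl_image _ hγ]
  exact ⟨p, hp, rfl⟩

theorem scale_mem {e : Bool} {m : ℕ} (hm : 0 < m) {u v z z' : F} (hz : z ≠ 0)
    (h : z' ^ m = z ^ m) (hzm : some z ∈ cl G (BB e m u v : Set (Option F))) :
    some z' ∈ cl G (BB e m u v : Set (Option F)) := by
  have hz' : z' ≠ 0 := by
    rintro rfl
    rw [zero_pow hm.ne'] at h
    exact hz (pow_eq_zero_iff hm.ne' |>.1 h.symm)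
  have hq : z' / z ≠ 0 := div_ne_zero hz' hz
  have hqm : (z' / z) ^ m = 1 := by
    rw [div_pow, h, div_self (pow_ne_zero m hz)]
  have := c.pres (c.hG _ (aff_mem (z' / z) 0 hq)) (B := BB e m u v) (by
    intro p
    cases p with
    | none => rw [aff_none]
    | some y =>
      by_cases hy : y = 0
      · subst hy
        rw [aff_some, add_zero, mul_zero]
      · rw [aff_some, add_zero, mem_BB hm hy, mem_BB hm (mul_ne_zero hq hy), mul_pow, hqm,
          one_mul]) hzm
  rw [aff_some, add_zero, div_mul_cancel₀ _ hz] at this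
  exact this

/-- the line property. -/
theorem line_eq {e : Bool} {m : ℕ} (hmF : (m : F) ≠ 0) (hm : 0 < m)
    (hnm : n = 2 * m + (if e then 2 else 0)) {u v a b : F}
    (hu : u ≠ 0) (hv : v ≠ 0)
    (huv : u ≠ v) (ha : a ≠ 0) (hb : b ≠ 0) (hab : a ≠ b) (hLa : LL G e m u v a)
    (hLb : LL G e m u v b) :
    cl G (BB e m a b : Set (Option F)) = cl G (BB e m u v : Set (Option F)) := by
  apply c.steiner' _ _ (by rw [card_BB hmF hm hu hv huv, hnm])
    (by rw [card_BB hmF hm ha hb hab, hnm])
  have key : ∀ w : F, w ≠ 0 → LL G e m u v w → ∀ y : F, y ^ m = w →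
      some y ∈ cl G (BB e m u v : Set (Option F)) := by
    rintro w hw ⟨z, hzw, hz⟩ y hy
    have hz0 : z ≠ 0 := by
      rintro rfl
      rw [zero_pow hm.ne'] at hzw
      exact hw hzw.symm
    exact c.scale_mem hm hz0 (hy.trans hzw.symm) hz
  intro p hp
  rw [Finset.mem_coe] at hp
  cases p with
  | none =>
    rw [none_mem_BB] at hp
    exact subset_cl _ (by rw [Finset.mem_coe, none_mem_BB]; exact hp)
  | some y =>
    by_cases hy : y = 0
    · subst hy
      rw [zero_mem_BB hm ha hb] at hp
      exact subset_cl _ (by rw [Finset.mem_coe, zero_mem_BB hm hu hv]; exact hp)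
    · rw [mem_BB hm hy] at hp
      rcases hp with hp | hp
      · exact key a ha hLa y hp
      · exact key b hb hLb y hp

omit [IsAlgClosed F] c in
theorem LL_congr {e : Bool} {m : ℕ} {a b u v : F}
    (h : cl G (BB e m a b : Set (Option F)) = cl G (BB e m u v : Set (Option F))) (w : F) :
    LL G e m a b w ↔ LL G e m u v w := by
  rw [LL, LL, h]

omit c in
theorem LL_left {e : Bool} {m : ℕ} (hm : 0 < m) {u : F} (hu : u ≠ 0) (v : F) :
    LL G e m u v u := by
  obtain ⟨z, hz⟩ := IsAlgClosed.exists_pow_nat_eq u hm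
  have hz0 : z ≠ 0 := by
    rintro rfl
    rw [zero_pow hm.ne'] at hz
    exact hu hz.symm
  exact ⟨z, hz, subset_cl _ (by rw [Finset.mem_coe, mem_BB hm hz0]; exact Or.inl hz)⟩

omit c in
theorem LL_right {e : Bool} {m : ℕ} (hm : 0 < m) (u : F) {v : F} (hv : v ≠ 0) :
    LL G e m u v v := by
  obtain ⟨z, hz⟩ := IsAlgClosed.exists_pow_nat_eq v hm
  have hz0 : z ≠ 0 := by
    rintro rfl
    rw [zero_pow hm.ne'] at hz
    exact hv hz.symm
  exact ⟨z, hz, subset_cl _ (by rw [Finset.mem_coe, mem_BB hm hz0]; exact Or.inr hz)⟩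

/-- invariance of the closure under `z ↦ d / z`, `d^m = u v`. -/
theorem kap_cl {e : Bool} {m : ℕ} (hm : 0 < m) {u v : F} (hu : u ≠ 0) (hv : v ≠ 0) :
    ∃ (d : F) (hd : d ≠ 0), d ^ m = u * v ∧ ∀ p ∈ cl G (BB e m u v : Set (Option F)),
      kap d hd p ∈ cl G (BB e m u v : Set (Option F)) := by
  obtain ⟨d, hd⟩ := IsAlgClosed.exists_pow_nat_eq (u * v) hm
  have hd0 : d ≠ 0 := by
    rintro rfl
    rw [zero_pow hm.ne'] at hd
    exact mul_ne_zero hu hv hd.symm
  refine ⟨d, hd0, hd, fun p hp => c.pres (c.hG _ (kap_mem d hd0)) (B := BB e m u v) ?_ hp⟩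
  intro q
  cases q with
  | none =>
    rw [kap_none, none_mem_BB, zero_mem_BB hm hu hv]
  | some y =>
    by_cases hy : y = 0
    · subst hy
      rw [kap_zero, none_mem_BB, zero_mem_BB hm hu hv]
    · rw [kap_some _ _ hy, mem_BB hm hy, mem_BB hm (div_ne_zero hd0 hy), div_pow, hd]
      have hym : y ^ m ≠ 0 := pow_ne_zero m hy
      rw [div_eq_iff hym, div_eq_iff hym]
      constructor
      · rintro (h | h)
        · right; rw [h]; ring
        · left; rw [h]
      · rintro (h | h)
        · right; exact (mul_left_cancel₀ hu h).symm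
        · left
          rw [mul_comm u v] at h
          exact (mul_left_cancel₀ hv h).symm

/-- (P1). -/
theorem P1 {e : Bool} {m : ℕ} (hmF : (m : F) ≠ 0) (hm : 0 < m)
    (hnm : n = 2 * m + (if e then 2 else 0)) {u v a b w : F}
    (hu : u ≠ 0) (hv : v ≠ 0)
    (huv : u ≠ v) (ha : a ≠ 0) (hb : b ≠ 0) (hab : a ≠ b) (hLa : LL G e m u v a)
    (hLb : LL G e m u v b) (hw : w ≠ 0) (hLw : LL G e m u v w) : LL G e m u v (a * b / w) := by
  have he := c.line_eq hmF hm hnm hu hv huv ha hb hab hLa hLb
  rw [← LL_congr he] at hLw ⊢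
  obtain ⟨z, hz, hzm⟩ := hLw
  obtain ⟨d, hd0, hd, hdp⟩ := c.kap_cl (e := e) hm ha hb
  have hz0 : z ≠ 0 := by
    rintro rfl
    rw [zero_pow hm.ne'] at hz
    exact hw hz.symm
  have := hdp _ hzm
  rw [kap_some _ _ hz0] at this
  exact ⟨d / z, by rw [div_pow, hd, hz], this⟩

theorem notK_of_LL {e : Bool} {m : ℕ} (hm : 0 < m) {u v w : F} (hu : u ∈ KK F) (hv : v ∈ KK F)
    (h : LL G e m u v w) : w ∈ KK F := by
  obtain ⟨z, hz, hzm⟩ := h
  have hroot : ∀ y w : F, w ∈ KK F → y ^ m = w → y ∈ KK F := by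
    intro y w hw hy
    rw [mem_algebraicClosure_iff] at hw ⊢
    rw [← hy] at hw
    exact IsAlgebraic.of_pow hm hw
  have hsub : (BB e m u v : Set (Option F)) ⊆ AA F := by
    intro p hp
    rw [Finset.mem_coe] at hp
    cases p with
    | none => exact none_mem_AA
    | some y =>
      by_cases hy : y = 0
      · subst hy; rw [some_mem_AA]; exact zero_mem _
      rw [mem_BB hm hy] at hp
      rw [some_mem_AA]
      rcases hp with hp | hp
      · exact hroot y u hu hp
      · exact hroot y v hv hp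
  have := cl_min ⟨Jn_AA G c.hG, 1, G.one_mem, by simp⟩ hsub hzm
  rw [some_mem_AA] at this
  rw [← hz]
  exact pow_mem this m

omit c [IsAlgClosed F] in
/-- a torsion element of order `2` or `3`. -/
theorem exists_torsion [IsAlgClosed F] : ∃ (a : F) (r : ℕ), (r = 2 ∨ r = 3) ∧ a ^ r = 1 ∧ a ≠ 1 := by
  by_cases h3 : (3 : F) = 0
  · refine ⟨-1, 2, Or.inl rfl, by ring, ?_⟩
    intro h
    have h2 : (2 : F) = 0 := by linear_combination -h
    apply one_ne_zero (α := F)
    linear_combination h3 - h2
  · have hN : NeZero ((3 : ℕ) : F) := ⟨by exact_mod_cast h3⟩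
    obtain ⟨ζ, hζ⟩ := HasEnoughRootsOfUnity.exists_primitiveRoot F 3
    exact ⟨ζ, 3, Or.inr rfl, hζ.pow_eq_one, hζ.ne_one (by norm_num)⟩

/-- a line through `1` and a transcendental element has no third point. -/
theorem no_third {e : Bool} {m : ℕ} (hmF : (m : F) ≠ 0) (hm : 0 < m)
    (hnm : n = 2 * m + (if e then 2 else 0)) {w : F} (hw : w ≠ 0) (hw1 : w ≠ 1)
    (hwt : w ≠ t) (hL : LL G e m 1 t w) : False := by
  have htK := c.ht
  have ht0 : t ≠ 0 := by rintro rfl; exact htK (zero_mem _)
  have ht1 : (1 : F) ≠ t := by rintro h; exact htK (h ▸ one_mem _)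
  have hone : (1 : F) ≠ 0 := one_ne_zero
  have L1 : LL G e m 1 t 1 := LL_left hm hone t
  have Lt : LL G e m 1 t t := LL_right hm 1 ht0
  -- w / t
  have h1 : LL G e m 1 t (1 * w / t) :=
    c.P1 hmF hm hnm hone ht0 ht1 hone hw (Ne.symm hw1) L1 hL ht0 Lt
  rw [one_mul] at h1
  have hwt1 : (1 : F) ≠ w / t := by
    intro h
    apply hwt
    field_simp at h
    exact h.symm
  have hwt0 : w / t ≠ 0 := div_ne_zero hw ht0
  -- t⁻¹
  have h2 : LL G e m 1 t (1 * (w / t) / w) :=
    c.P1 hmF hm hnm hone ht0 ht1 hone hwt0 hwt1 L1 h1 hw hL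
  have e2 : 1 * (w / t) / w = t⁻¹ := by field_simp
  rw [e2] at h2
  -- t ^ 2
  have h3 : LL G e m 1 t (1 * t / t⁻¹) :=
    c.P1 hmF hm hnm hone ht0 ht1 hone ht0 ht1 L1 Lt (inv_ne_zero ht0) h2
  have e3 : 1 * t / t⁻¹ = t ^ 2 := by field_simp
  rw [e3] at h3
  -- t ^ 3
  have htt : t ≠ t ^ 2 := by
    intro h
    apply ht1
    have h' : t * 1 = t * t := by rw [mul_one, ← pow_two]; exact h
    exact mul_left_cancel₀ ht0 h'
  have h3' : LL G e m 1 t (t * t ^ 2 / 1) :=
    c.P1 hmF hm hnm hone ht0 ht1 ht0 (pow_ne_zero 2 ht0) htt Lt h3 hone L1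
  have e3' : t * t ^ 2 / 1 = t ^ 3 := by field_simp
  rw [e3'] at h3'
  obtain ⟨a, r, hr, har, ha1⟩ := exists_torsion (F := F)
  have hr0 : 0 < r := by rcases hr with rfl | rfl <;> norm_num
  have hLr : LL G e m 1 t (t ^ r) := by
    rcases hr with rfl | rfl
    · exact h3
    · exact h3'
  have ha0 : a ≠ 0 := by
    rintro rfl
    rw [zero_pow hr0.ne'] at har
    exact zero_ne_one har
  have haK : a ∈ KK F := by
    rw [mem_algebraicClosure_iff]
    apply IsAlgebraic.of_pow hr0
    rw [har]
    exact isAlgebraic_one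
  -- the automorphism t ↦ a t
  have hnt : a * t ∉ KK F := by
    intro h
    apply htK
    have := mul_mem (inv_mem haK) h
    rwa [inv_mul_cancel_left₀ ha0] at this
  obtain ⟨σ, hσ, hσt⟩ := exists_aut (transc_of_not_mem htK) (transc_of_not_mem hnt)
  have h4 : LL G e m 1 (a * t) (t ^ r) := by
    obtain ⟨z, hz, hzm⟩ := hLr
    refine ⟨σ z, ?_, ?_⟩
    · rw [← map_pow, hz, map_pow, hσt, mul_pow, har, one_mul]
    · have e4 : gal σ '' (BB e m 1 t : Set (Option F)) =
          (BB e m 1 (a * t) : Set (Option F)) := by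
        have hat0 : a * t ≠ 0 := mul_ne_zero ha0 ht0
        have hiff : ∀ q : Option F, q ∈ BB e m 1 t ↔ gal σ q ∈ BB e m 1 (a * t) := by
          intro q
          cases q with
          | none => rw [gal_none, none_mem_BB, none_mem_BB]
          | some y =>
            by_cases hy : y = 0
            · subst hy
              rw [gal_some, map_zero, zero_mem_BB hm hone ht0, zero_mem_BB hm hone hat0]
            · have hσy : σ y ≠ 0 := by
                rw [Ne, map_eq_zero_iff σ σ.injective]; exact hy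
              rw [gal_some, mem_BB hm hy, mem_BB hm hσy, ← map_pow, ← hσt]
              constructor
              · rintro (h | h)
                · left; rw [h, map_one]
                · right; rw [h]
              · rintro (h | h)
                · left
                  apply σ.injective
                  rw [h, map_one]
                · right; exact σ.injective h
        ext p
        constructor
        · rintro ⟨q, hq, rfl⟩
          exact (hiff q).1 hq
        · intro hp
          refine ⟨(gal σ)⁻¹ p, ?_, app_inv _ _⟩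
          rw [Finset.mem_coe, hiff, app_inv]
          exact hp
      rw [← e4, cl_image _ (c.hG _ (gal_mem σ))]
      exact ⟨some z, hzm, rfl⟩
  have ht20 : t ^ r ≠ 0 := pow_ne_zero r ht0
  have ht21 : (1 : F) ≠ t ^ r := by
    intro h
    apply htK
    rw [mem_algebraicClosure_iff]
    apply IsAlgebraic.of_pow hr0
    rw [← h]
    exact isAlgebraic_one
  have hnt0 : a * t ≠ 0 := mul_ne_zero ha0 ht0
  have hnt1 : (1 : F) ≠ a * t := by rintro h; exact hnt (h ▸ one_mem _)
  have e5 := c.line_eq hmF hm hnm hone ht0 ht1 hone ht20 ht21 L1 hLr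
  have e6 := c.line_eq hmF hm hnm hone hnt0 hnt1 hone ht20 ht21 (LL_left hm hone (a * t)) h4
  have e7 : cl G (BB e m 1 (a * t) : Set (Option F)) = cl G (BB e m 1 t : Set (Option F)) :=
    e6.symm.trans e5
  have h5 : LL G e m 1 t (a * t) := by
    rw [← LL_congr e7]
    exact LL_right hm 1 hnt0
  have h6 : LL G e m 1 t (1 * (a * t) / t) :=
    c.P1 hmF hm hnm hone ht0 ht1 hone hnt0 hnt1 L1 h5 ht0 Lt
  have e8 : 1 * (a * t) / t = a := by field_simp
  rw [e8] at h6
  have e9 := c.line_eq hmF hm hnm hone ht0 ht1 hone ha0 (Ne.symm ha1) L1 h6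
  have h7 : LL G e m 1 a t := by
    rw [LL_congr e9]
    exact Lt
  exact htK (c.notK_of_LL hm (one_mem _) haK h7)

/-- The Steiner type is impossible for even `n ≥ 4`. -/
theorem even_contra {m : ℕ} (hm : 2 ≤ m) (hnm : n = 2 * m) : False := by
  classical
  have htK := c.ht
  have ht0 : t ≠ 0 := by rintro rfl; exact htK (zero_mem _)
  have ht1 : (1 : F) ≠ t := by rintro h; exact htK (h ▸ one_mem _)
  have hone : (1 : F) ≠ 0 := one_ne_zero
  by_cases hq : ((m - 1 : ℕ) : F) = 0
  swap
  · -- option I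
    have hq0 : 0 < m - 1 := by omega
    have hnm' : n = 2 * (m - 1) + (if true then 2 else 0) := by
      rw [if_pos rfl]; omega
    obtain ⟨z, hz, hzB⟩ := c.extra (BB true (m - 1) 1 t)
      (by rw [card_BB hq hq0 hone ht0 ht1]; omega)
    cases z with
    | none => exact hzB (none_mem_BB.2 rfl)
    | some y =>
      have hy0 : y ≠ 0 := by
        rintro rfl
        exact hzB ((zero_mem_BB hq0 hone ht0).2 rfl)
      rw [mem_BB hq0 hy0, not_or] at hzB
      exact c.no_third hq hq0 hnm' (pow_ne_zero _ hy0) hzB.1 hzB.2 ⟨y, rfl, hz⟩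
  -- option II
  have hm0 : 0 < m := by omega
  have hmF : (m : F) ≠ 0 := by
    have h1 : (m : F) = ((m - 1 : ℕ) : F) + 1 := by
      have : m = (m - 1) + 1 := by omega
      conv_lhs => rw [this]
      push_cast
      ring
    rw [h1, hq, zero_add]
    exact hone
  have hkF : ((n - 1 : ℕ) : F) ≠ 0 := by
    have h1 : ((n - 1 : ℕ) : F) = 2 * ((m - 1 : ℕ) : F) + 1 := by
      have : n - 1 = 2 * (m - 1) + 1 := by omega
      rw [this]
      push_cast
      ring
    rw [h1, hq, mul_zero, zero_add]
    exact hone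
  have hk : 0 < n - 1 := by omega
  have hnm' : n = 2 * m + (if false then 2 else 0) := by simp [hnm]
  have hBc : (BB false m 1 t).card = n := by rw [card_BB hmF hm0 hone ht0 ht1]; omega
  have h3 : ∀ p ∈ cl G (BB false m 1 t : Set (Option F)), p ∉ BB false m 1 t →
      p = none ∨ p = some 0 := by
    intro p hp hpB
    cases p with
    | none => exact Or.inl rfl
    | some z =>
      right
      by_contra hz
      have hz0 : z ≠ 0 := fun h => hz (by rw [h])
      rw [mem_BB hm0 hz0, not_or] at hpB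
      exact c.no_third hmF hm0 hnm' (pow_ne_zero m hz0) hpB.1 hpB.2 ⟨z, rfl, hp⟩
  obtain ⟨d, hd0, hd, hdp⟩ := c.kap_cl (e := false) hm0 hone ht0
  have hboth : none ∈ cl G (BB false m 1 t : Set (Option F)) ∧
      some 0 ∈ cl G (BB false m 1 t : Set (Option F)) := by
    obtain ⟨z, hz, hzB⟩ := c.extra (BB false m 1 t) hBc
    rcases h3 z hz hzB with rfl | rfl
    · refine ⟨hz, ?_⟩
      have := hdp _ hz
      rwa [kap_none] at this
    · refine ⟨?_, hz⟩
      have := hdp _ hz
      rwa [kap_zero] at this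
  have hnB : none ∉ BB false m 1 t := by rw [none_mem_BB]; simp
  have h0B : some 0 ∉ BB false m 1 t := by rw [zero_mem_BB hm0 hone ht0]; simp
  -- the set B2
  let B2 : Finset (Option F) := insert (some 0) (Fib (n - 1) (1 : F))
  have hB2z : (some 0 : Option F) ∉ Fib (n - 1) (1 : F) := by
    rw [mem_Fib hk, zero_pow hk.ne']
    exact zero_ne_one
  have hB2c : B2.card = n := by
    rw [Finset.card_insert_of_notMem hB2z, card_Fib hkF hone]
    omega
  obtain ⟨g, hg, hgB⟩ := c.move (BB false m 1 t) B2 hBc hB2c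
  have hcl : cl G (B2 : Set (Option F)) = g '' cl G (BB false m 1 t : Set (Option F)) := by
    rw [← hgB, Finset.coe_image, cl_image _ hg]
  have hex : ∀ p ∈ cl G (B2 : Set (Option F)), p ∉ B2 → p = g none ∨ p = g (some 0) := by
    intro p hp hpB
    rw [hcl] at hp
    obtain ⟨q, hq, rfl⟩ := hp
    have hqB : q ∉ BB false m 1 t := by
      intro h
      apply hpB
      rw [← hgB]
      exact Finset.mem_image_of_mem g h
    rcases h3 q hq hqB with rfl | rfl
    · exact Or.inl rfl
    · exact Or.inr rfl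
  have hmemg : ∀ q : Option F, q ∈ cl G (BB false m 1 t : Set (Option F)) →
      q ∉ BB false m 1 t → g q ∈ cl G (B2 : Set (Option F)) ∧ g q ∉ B2 := by
    intro q hq hqB
    refine ⟨by rw [hcl]; exact ⟨q, hq, rfl⟩, ?_⟩
    rw [← hgB, Finset.mem_image]
    rintro ⟨q', hq', hgq⟩
    exact hqB (g.injective hgq ▸ hq')
  obtain ⟨y, hyc, hyB⟩ : ∃ y : F, some y ∈ cl G (B2 : Set (Option F)) ∧ some y ∉ B2 := by
    have m1 := hmemg none hboth.1 hnB
    have m2 := hmemg (some 0) hboth.2 h0B
    rcases h : g none with _ | y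
    · rcases h' : g (some 0) with _ | y
      · exfalso
        have := g.injective (h.trans h'.symm)
        cases this
      · rw [h'] at m2
        exact ⟨y, m2⟩
    · rw [h] at m1
      exact ⟨y, m1⟩
  have hNZ : NeZero ((n - 1 : ℕ) : F) := ⟨hkF⟩
  have hNZ' : NeZero (n - 1) := ⟨hk.ne'⟩
  obtain ⟨ζ, hζ⟩ := HasEnoughRootsOfUnity.exists_primitiveRoot F (n - 1)
  have hy0 : y ≠ 0 := by
    rintro rfl
    exact hyB (Finset.mem_insert_self _ _)
  have hyk : y ^ (n - 1) ≠ 1 := by
    intro h
    apply hyB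
    apply Finset.mem_insert_of_mem
    rwa [mem_Fib hk]
  have hζ0 : ζ ≠ 0 := hζ.ne_zero hk.ne'
  have hrot : ∀ i : ℕ, some (ζ ^ i * y) = g none ∨ some (ζ ^ i * y) = g (some 0) := by
    intro i
    have hi0 : ζ ^ i ≠ 0 := pow_ne_zero i hζ0
    have hik : (ζ ^ i) ^ (n - 1) = 1 := by
      rw [← pow_mul, mul_comm, pow_mul, hζ.pow_eq_one, one_pow]
    apply hex
    · have := c.pres (c.hG _ (aff_mem (ζ ^ i) 0 hi0)) (B := B2) (by
        intro p
        cases p with
        | none =>
          rw [aff_none]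
        | some x =>
          rw [aff_some, add_zero]
          simp only [B2, Finset.mem_insert, Option.some.injEq, mem_Fib hk]
          rw [mul_pow, hik, one_mul]
          simp [hi0]) hyc
      rwa [aff_some, add_zero] at this
    · simp only [B2, Finset.mem_insert, Option.some.injEq, mem_Fib hk]
      rw [mul_pow, hik, one_mul]
      simp [hi0, hy0, hyk]
  have hne : ∀ i j : ℕ, i < n - 1 → j < n - 1 → i ≠ j →
      (some (ζ ^ i * y) : Option F) ≠ some (ζ ^ j * y) := by
    intro i j hi hj hij h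
    have h1 := mul_right_cancel₀ hy0 (Option.some_injective _ h)
    exact hij (hζ.pow_inj hi hj h1)
  have n01 := hne 0 1 (by omega) (by omega) (by omega)
  have n02 := hne 0 2 (by omega) (by omega) (by omega)
  have n12 := hne 1 2 (by omega) (by omega) (by omega)
  rcases hrot 0 with a0 | a0 <;> rcases hrot 1 with a1 | a1 <;> rcases hrot 2 with a2 | a2
  · exact n01 (a0.trans a1.symm)
  · exact n01 (a0.trans a1.symm)
  · exact n02 (a0.trans a2.symm)
  · exact n12 (a1.trans a2.symm)
  · exact n12 (a1.trans a2.symm)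
  · exact n02 (a0.trans a2.symm)
  · exact n01 (a0.trans a1.symm)
  · exact n01 (a0.trans a1.symm)

end StC

end Pool.Agent.H37PU
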