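import Mathlib
import Pool.Agent.H37PU.Even2
import Pool.Agent.H37PU.ChainEnd
import Pool.Agent.H37PG.Transfer

/-!
# The structure theorem on `Option F`
-/

set_option autoImplicit false

namespace Pool.Agent.H37PU

open Equiv Pool.Agent.H37PG

section Abs

variable {X : Type*}

/-- transitivity on `n`-tuples of distinct points. -/
def TT (G : Subgroup (Perm X)) (n : ℕ) : Prop :=
  ∀ x y : Fin n → X, Function.Injective x → Function.Injective y →
    ∃ h ∈ G, ∀ i, h (x i) = y i

/-- all sets of fewer than `n` points are Jordan complements. -/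
def TrX (G : Subgroup (Perm X)) (n : ℕ) : Prop :=
  ∀ P : Finset X, P.card < n → Jn G (P : Set X)

theorem TT_of_TrX (G : Subgroup (Perm X)) : ∀ n : ℕ, TrX G n → TT G n := by
  classical
  intro n
  induction n with
  | zero => intro _ x y _ _; exact ⟨1, G.one_mem, fun i => i.elim0⟩
  | succ n ih =>
    intro hT x y hx hy
    obtain ⟨g, hg, hgx⟩ := ih (fun P hP => hT P (by omega)) (fun i => x i.castSucc)
      (fun i => y i.castSucc) (fun i j h => Fin.castSucc_injective n (hx h))
      (fun i j h => Fin.castSucc_injective n (hy h))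
    let P : Finset X := Finset.univ.image (fun i : Fin n => y i.castSucc)
    have hP : P.card < n + 1 := by
      refine lt_of_le_of_lt Finset.card_image_le ?_
      simp
    have h1 : g (x (Fin.last n)) ∉ (P : Set X) := by
      intro h
      rw [Finset.mem_coe, Finset.mem_image] at h
      obtain ⟨i, -, hi⟩ := h
      rw [← hgx i] at hi
      have := hx (g.injective hi)
      exact (Fin.castSucc_lt_last i).ne this
    have h2 : y (Fin.last n) ∉ (P : Set X) := by
      intro h
      rw [Finset.mem_coe, Finset.mem_image] at h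
      obtain ⟨i, -, hi⟩ := h
      exact (Fin.castSucc_lt_last i).ne (hy hi)
    obtain ⟨u, hu, huf, hux⟩ := hT P hP _ _ h1 h2
    refine ⟨u * g, G.mul_mem hu hg, ?_⟩
    intro i
    rw [Perm.mul_apply]
    refine Fin.lastCases ?_ (fun j => ?_) i
    · exact hux
    · rw [hgx j]
      exact huf _ (by rw [Finset.mem_coe, Finset.mem_image]; exact ⟨j, Finset.mem_univ _, rfl⟩)

theorem TrX_of_TT [Infinite X] (G : Subgroup (Perm X)) (n : ℕ) (hT : TT G n) : TrX G n := by
  classical
  intro P hP x y hx hy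
  obtain ⟨m, rfl⟩ : ∃ m, n = m + 1 := ⟨n - 1, by omega⟩
  -- enlarge P
  obtain ⟨Q, hQP, hQc, hxQ, hyQ⟩ : ∃ Q : Finset X, P ⊆ Q ∧ Q.card = m ∧ x ∉ Q ∧ y ∉ Q := by
    have hinf : ((P ∪ {x, y} : Finset X) : Set X)ᶜ.Infinite := by
      exact (Finset.finite_toSet _).infinite_compl
    obtain ⟨R, hR, hRc⟩ := hinf.exists_subset_card_eq (m - P.card)
    refine ⟨P ∪ R, Finset.subset_union_left, ?_, ?_, ?_⟩
    · rw [Finset.card_union_of_disjoint, hRc]
      · omega
      · rw [Finset.disjoint_left]
        intro z hz hzR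
        have := hR hzR
        apply this
        simp [hz]
    · rw [Finset.mem_union]
      rintro (h | h)
      · exact hx h
      · exact hR h (by simp)
    · rw [Finset.mem_union]
      rintro (h | h)
      · exact hy h
      · exact hR h (by simp)
  let e := (Finset.equivFinOfCardEq hQc).symm
  have hinj : ∀ z : X, z ∉ Q → Function.Injective
      (Fin.cons z (fun i => (e i : X)) : Fin (m + 1) → X) := by
    intro z hz
    rw [Fin.cons_injective_iff]
    refine ⟨?_, fun i j h => e.injective (Subtype.ext h)⟩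
    rintro ⟨i, hi⟩
    exact hz (hi ▸ (e i).2)
  obtain ⟨h, hh, hhe⟩ := hT _ _ (hinj x hxQ) (hinj y hyQ)
  refine ⟨h, hh, ?_, ?_⟩
  · intro a ha
    have := hhe (Fin.succ (e.symm ⟨a, hQP ha⟩))
    simpa using this
  · have := hhe 0
    simpa using this

theorem TrX_of_eq [Infinite X] (G : Subgroup (Perm X)) (k : ℕ)
    (h : ∀ P : Finset X, P.card = k → Jn G (P : Set X)) : TrX G (k + 1) := by
  classical
  intro P hP x y hx hy
  have hinf : ((P ∪ {x, y} : Finset X) : Set X)ᶜ.Infinite :=
    (Finset.finite_toSet _).infinite_compl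
  obtain ⟨R, hR, hRc⟩ := hinf.exists_subset_card_eq (k - P.card)
  have hc : (P ∪ R).card = k := by
    rw [Finset.card_union_of_disjoint, hRc]
    · omega
    · rw [Finset.disjoint_left]
      intro z hz hzR
      have := hR hzR
      apply this
      simp [hz]
  have hnot : ∀ z, z ∉ (P : Set X) → (z = x ∨ z = y) → z ∉ ((P ∪ R : Finset X) : Set X) := by
    intro z hz hzz hm
    rw [Finset.mem_coe, Finset.mem_union] at hm
    rcases hm with hm | hm
    · exact hz hm
    · exact hR hm (by rcases hzz with rfl | rfl <;> simp)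
  obtain ⟨g, hg, hf, he⟩ := h (P ∪ R) hc x y (hnot x hx (Or.inl rfl)) (hnot y hy (Or.inr rfl))
  exact ⟨g, hg, fun a ha => hf a (by rw [Finset.coe_union]; exact Or.inl ha), he⟩

/-- density. -/
theorem dense_of_TT (G : Subgroup (Perm X)) (h : ∀ n, TT G n) (σ : Perm X) (A : Finset X) :
    ∃ g ∈ G, ∀ x ∈ A, g x = σ x := by
  let e := A.equivFin.symm
  obtain ⟨g, hg, hgx⟩ := h A.card (fun i => (e i : X)) (fun i => σ (e i : X))
    (fun i j hij => e.injective (Subtype.ext hij))
    (fun i j hij => e.injective (Subtype.ext (σ.injective hij)))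
  refine ⟨g, hg, fun x hx => ?_⟩
  have := hgx (e.symm ⟨x, hx⟩)
  simpa using this

/-- `G` preserves an `n`-Steiner system with large proper blocks whose pointwise stabilisers are
transitive off the block. -/
def Stn (G : Subgroup (Perm X)) (n : ℕ) : Prop :=
  ∃ 𝓑 : Set (Set X), (∀ h ∈ G, ∀ B ∈ 𝓑, h '' B ∈ 𝓑) ∧
    (∀ S : Finset X, S.card = n → ∃! B, B ∈ 𝓑 ∧ (S : Set X) ⊆ B) ∧
    (∀ B ∈ 𝓑, B ≠ Set.univ ∧ (∃ T : Finset X, T.card = n + 1 ∧ (T : Set X) ⊆ B) ∧
      ∀ x y, x ∉ B → y ∉ B → ∃ h ∈ G, (∀ b ∈ B, h b = b) ∧ h x = y)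

end Abs

section Str

variable {F : Type*} [Field F] [IsAlgClosed F]

/-- transcendence degree at least two gives independent elements. -/
theorem exists_indep (h2 : 2 ≤ Algebra.trdeg (⊥ : Subfield F) F) (w : F) :
    ∃ z : F, Transcendental (IntermediateField.adjoin (KK F) ({w} : Set F)) z := by
  by_contra hcon
  push Not at hcon
  have h1 : Algebra.IsAlgebraic (IntermediateField.adjoin (KK F) ({w} : Set F)) F :=
    ⟨fun z => by
      by_contra h
      exact hcon z h⟩
  have h3 : Algebra.IsAlgebraic (Algebra.adjoin (KK F) ({w} : Set F)) F :=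
    IntermediateField.isAlgebraic_adjoin_iff_top.1 h1
  have h4 : Algebra.trdeg (KK F) F ≤ 1 := by
    have := Algebra.IsAlgebraic.trdeg_le_cardinalMk (KK F) ({w} : Set F)
    simpa using this
  have h5 : Algebra.trdeg (⊥ : Subfield F) (KK F) = 0 := trdeg_eq_zero
  have h6 := trdeg_add_eq (⊥ : Subfield F) (KK F) (A := F)
  rw [h5, zero_add] at h6
  rw [h6] at h4
  have h7 := h2.trans h4
  exact (not_le.2 Cardinal.one_lt_two) h7

theorem structure_option (hF : ¬ Algebra.IsAlgebraic (⊥ : Subfield F) F)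
    (hh : CharZero F ∨ 2 ≤ Algebra.trdeg (⊥ : Subfield F) F)
    (G : Subgroup (Perm (Option F))) (hG : ∀ g ∈ Gam F, g ∈ G) (hne : ∃ g ∈ G, g ∉ Gam F) :
    (∀ n, TT G n) ∨ ∃ n, Odd n ∧ 5 ≤ n ∧ TT G n ∧ ¬ TT G (n + 1) ∧ Stn G n := by
  classical
  obtain ⟨t, ht⟩ : ∃ t, t ∉ KK F := by
    by_contra hcon
    push Not at hcon
    exact hF ⟨fun x => mem_algebraicClosure_iff.1 (hcon x)⟩
  by_cases hcov : ∀ g ∈ G, ∃ x, x ∉ AA F ∧ x ∉ g '' AA F
  swap
  · left
    push Not at hcov
    obtain ⟨g, hg, hcov⟩ := hcov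
    intro n
    apply TT_of_TrX
    intro P _
    exact case1 G hG t ht g hg (fun x => by
      by_cases hx : x ∈ AA F
      · exact Or.inl hx
      · exact Or.inr (hcov x hx)) _ (Finset.finite_toSet P)
  -- Tr G 4
  have hJ3 := main_option hF G hG hne
  have h4 : TrX G 4 := by
    apply TrX_of_eq
    intro P hP
    obtain ⟨p, q, r, hpq, hpr, hqr, rfl⟩ := Finset.card_eq_three.1 hP
    obtain ⟨δ, hδ, h1, h2, h3⟩ := three_trans p q r hpq hpr hqr
    have := hJ3.image (hG _ hδ)
    have he : (({p, q, r} : Finset (Option F)) : Set (Option F)) =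
        δ '' ({none, some 0, some 1} : Set (Option F)) := by
      rw [Set.image_insert_eq, Set.image_pair, h1, h2, h3]
      simp
    rw [he]
    exact this
  by_cases hall : ∀ n, TrX G n
  · left
    intro n
    exact TT_of_TrX G n (hall n)
  right
  have hex : ∃ n, ¬ TrX G n := by push Not at hall; exact hall
  have hspec := Nat.find_spec hex
  have hmin : ∀ m < Nat.find hex, TrX G m := fun m hm => by
    by_contra h
    exact Nat.find_min hex hm h
  have h5 : 5 ≤ Nat.find hex := by
    by_contra hlt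
    apply hspec
    intro P hP
    exact h4 P (by omega)
  obtain ⟨n, hn⟩ : ∃ n, Nat.find hex = n + 1 := ⟨Nat.find hex - 1, by omega⟩
  rw [hn] at hspec hmin h5
  have hT : TrX G n := hmin n (by omega)
  have hTr : Tr G n := hT
  -- exchange
  have hS : ∀ b : Finset (Option F), b.card + 1 = n → ∀ x y, x ∉ b → y ∉ b →
      x ∈ cl G (insert y b : Finset (Option F)) → y ∈ cl G (insert x b : Finset (Option F)) := by
    rcases dichotomy hG ht hcov hTr (n - 1) (by omega) with h | h
    · intro b hb
      exact h b (by omega)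
    · exfalso
      obtain ⟨b0, hb0, hb0c⟩ := (AA_infinite (F := F)).exists_subset_card_eq (n - 1)
      have c : Ctx G b0 t :=
        { hG := hG
          ht := ht
          hcov := hcov
          hT := by
            have : b0.card + 1 = n := by omega
            rw [this]; exact hTr
          hb0 := hb0
          hCh := fun b hb => h b (hb.trans hb0c) }
      exact c.contra (hh.imp id (fun h2 => exists_indep h2))
  have c : StC G n t :=
    { hG := hG
      ht := ht
      hcov := hcov
      hn := by omega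
      hT := hTr
      hS := hS
      hnT := hspec }
  have hodd : Odd n := by
    rw [← Nat.not_even_iff_odd]
    rintro ⟨m, hm⟩
    exact c.even_contra (m := m) (by omega) (by omega)
  have hn5 : 5 ≤ n := by
    rcases hodd with ⟨k, hk⟩
    omega
  refine ⟨n, hodd, hn5, TT_of_TrX G n hT, fun h => hspec (TrX_of_TT G _ h), ?_⟩
  refine ⟨{D | ∃ B : Finset (Option F), B.card = n ∧ D = cl G (B : Set (Option F))}, ?_, ?_, ?_⟩
  · rintro h hh _ ⟨B, hB, rfl⟩
    refine ⟨B.image h, by rw [Finset.card_image_of_injective _ h.injective, hB], ?_⟩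
    rw [Finset.coe_image, cl_image _ hh]
  · intro S hSc
    refine ⟨cl G (S : Set (Option F)), ⟨⟨S, hSc, rfl⟩, subset_cl _⟩, ?_⟩
    rintro _ ⟨⟨B, hB, rfl⟩, hsub⟩
    exact (c.steiner' B S hB hSc hsub).symm
  · rintro _ ⟨B, hB, rfl⟩
    refine ⟨?_, ?_, (c.bd B hB).1⟩
    · intro hu
      obtain ⟨z, hz⟩ := (c.bd B hB).exists_not_mem ht
      exact hz (hu ▸ Set.mem_univ z)
    · obtain ⟨z, hz, hzB⟩ := c.extra B hB
      refine ⟨insert z B, by rw [Finset.card_insert_of_notMem hzB, hB], ?_⟩
      rw [Finset.coe_insert]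
      exact Set.insert_subset hz (subset_cl _)

end Str

end Pool.Agent.H37PU
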