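import Mathlib
import Pool.Agent.H37PU.Final

/-!
# Transfer of transitivity and Steiner systems along a bijection
-/

set_option autoImplicit false

namespace Pool.Agent.H37PU

open Equiv Pool.Agent.H37PG

section

variable {F : Type} [Field F]

theorem TT_pull (H : Subgroup (Perm (Projectivization F (Fin 2 → F)))) (n : ℕ) :
    TT (pull H) n ↔ TT H n := by
  constructor
  · intro h x y hx hy
    obtain ⟨g, hg, hgx⟩ := h (fun i => (ee F).symm (x i)) (fun i => (ee F).symm (y i))
      (fun i j hij => hx ((ee F).symm.injective hij))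
      (fun i j hij => hy ((ee F).symm.injective hij))
    refine ⟨cj g, hg, fun i => ?_⟩
    have := cj_apply g ((ee F).symm (x i))
    rw [Equiv.apply_symm_apply, hgx i, Equiv.apply_symm_apply] at this
    exact this
  · intro h x y hx hy
    obtain ⟨g, hg, hgx⟩ := h (fun i => ee F (x i)) (fun i => ee F (y i))
      (fun i j hij => hx ((ee F).injective hij))
      (fun i j hij => hy ((ee F).injective hij))
    obtain ⟨g, rfl⟩ := exists_cj g
    refine ⟨g, hg, fun i => ?_⟩
    apply (ee F).injective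
    rw [← cj_apply]
    exact hgx i

theorem Stn_pull (H : Subgroup (Perm (Projectivization F (Fin 2 → F)))) (n : ℕ)
    (h : Stn (pull H) n) : Stn H n := by
  classical
  obtain ⟨𝓑, h1, h2, h3⟩ := h
  have hee : ∀ D : Set (Option F), ∀ g : Perm (Option F),
      cj g '' (ee F '' D) = ee F '' (g '' D) := by
    intro D g
    ext q
    constructor
    · rintro ⟨_, ⟨p, hp, rfl⟩, rfl⟩
      exact ⟨g p, ⟨p, hp, rfl⟩, (cj_apply g p).symm⟩
    · rintro ⟨_, ⟨p, hp, rfl⟩, rfl⟩
      exact ⟨ee F p, ⟨p, hp, rfl⟩, cj_apply g p⟩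
  refine ⟨(fun D => ee F '' D) '' 𝓑, ?_, ?_, ?_⟩
  · rintro g hg _ ⟨D, hD, rfl⟩
    obtain ⟨g, rfl⟩ := exists_cj g
    exact ⟨g '' D, h1 g hg D hD, (hee D g).symm⟩
  · intro S hS
    obtain ⟨D, ⟨hD, hSD⟩, huniq⟩ := h2 (S.image (ee F).symm)
      (by rw [Finset.card_image_of_injective _ (ee F).symm.injective, hS])
    refine ⟨ee F '' D, ⟨⟨D, hD, rfl⟩, ?_⟩, ?_⟩
    · intro x hx
      refine ⟨(ee F).symm x, hSD ?_, Equiv.apply_symm_apply _ _⟩
      rw [Finset.coe_image]
      exact ⟨x, hx, rfl⟩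
    · rintro _ ⟨⟨D', hD', rfl⟩, hsub⟩
      have : D' = D := by
        apply huniq
        refine ⟨hD', ?_⟩
        rw [Finset.coe_image]
        rintro _ ⟨x, hx, rfl⟩
        obtain ⟨p, hp, hpx⟩ := hsub hx
        rw [← hpx, Equiv.symm_apply_apply]
        exact hp
      rw [this]
  · rintro _ ⟨D, hD, rfl⟩
    obtain ⟨a1, ⟨T, hT, hTD⟩, a3⟩ := h3 D hD
    refine ⟨?_, ⟨T.image (ee F), ?_, ?_⟩, ?_⟩
    · intro hu
      apply a1
      rw [Set.eq_univ_iff_forall] at hu ⊢
      intro p
      obtain ⟨q, hq, hqp⟩ := hu (ee F p)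
      rwa [← (ee F).injective hqp]
    · rw [Finset.card_image_of_injective _ (ee F).injective, hT]
    · rw [Finset.coe_image]
      exact Set.image_mono hTD
    · intro x y hx hy
      obtain ⟨g, hg, hgf, hgx⟩ := a3 ((ee F).symm x) ((ee F).symm y)
        (fun h => hx ⟨_, h, Equiv.apply_symm_apply _ _⟩)
        (fun h => hy ⟨_, h, Equiv.apply_symm_apply _ _⟩)
      refine ⟨cj g, hg, ?_, ?_⟩
      · rintro _ ⟨p, hp, rfl⟩
        rw [cj_apply, hgf p hp]
      · have := cj_apply g ((ee F).symm x)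
        rw [Equiv.apply_symm_apply, hgx, Equiv.apply_symm_apply] at this
        exact this

end

end Pool.Agent.H37PU
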